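import Pool.Agent.W273.Z.Gen

/-!
Integral points of `y^2 = f(x)`, `deg f` odd, for which a square root of an affine function of `x`
has an exceptionally good rational approximation.
-/

set_option autoImplicit false

namespace Pool.Agent.Results.MP_d88658_nt.ApproximableSqrt

open Polynomial Pool.Agent.W273.Z

/-- For every odd `d ≥ 3`, `κ ≥ 0` and `ε > 0` there are `C₁`, `C₂` such that for every `f ∈ ℤ[X]` of
degree `d` without repeated roots, every integral point `(x, y)` of `y^2 = f(x)` and all integers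
`n`, `e`, `a`, `b` such that `n` times the leading coefficient of `f` is a nonzero square,
`1 ≤ b ≤ |x|^κ` and `|b^2 (n x + e) - a^2| ≤ |x|^(1/2 - ε)`, either
`h(x) ≤ C₁ max(h(f), h(n), h(e)) + C₂`, or `a / b = Q(x) y / m(x)` for some `m, Q ∈ ℤ[X]`, where
`(d - 1) / 2 ≤ deg m ≤ 2 κ` and `Q^2 f = m ((n X + e) m - c)` with a nonzero constant `c`. -/
theorem result (d : ℕ) (hd : Odd d) (hd3 : 3 ≤ d) (κ ε : ℝ) (hκ : 0 ≤ κ) (hε : 0 < ε) :
    ∃ C₁ C₂ : ℝ, ∀ f : ℤ[X], f.natDegree = d → (f.map (Int.castRingHom ℚ)).Separable →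
      ∀ x y : ℤ, y ^ 2 = f.eval x →
      ∀ n e : ℤ, (∃ h : ℤ, h ≠ 0 ∧ n * f.leadingCoeff = h ^ 2) →
      ∀ a b : ℤ, 1 ≤ b → (b : ℝ) ≤ |(x : ℝ)| ^ κ →
      |(b : ℝ) ^ 2 * (n * x + e) - (a : ℝ) ^ 2| ≤ |(x : ℝ)| ^ (1 / 2 - ε) →
      Real.log (max |(x : ℝ)| 1) ≤
          C₁ * Real.log (max (max (max ((f.support.sup (fun i => (f.coeff i).natAbs) : ℕ) : ℝ)
            |(n : ℝ)|) |(e : ℝ)|) 1) + C₂ ∨
        ∃ m Q : ℤ[X], ∃ c : ℤ, c ≠ 0 ∧ d ≤ 2 * m.natDegree + 1 ∧ (m.natDegree : ℝ) ≤ 2 * κ ∧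
          Q ^ 2 * f = m * ((C n * X + C e) * m - C c) ∧
          m.eval x ≠ 0 ∧ a * m.eval x = b * (Q.eval x * y) := by
  obtain ⟨K, M, hK, h⟩ := gen d hd hd3 κ ε hκ hε
  refine ⟨M, Real.log K, ?_⟩
  rintro f hfd hsep x y hy n e ⟨s, hs, hns⟩ a b hb hbx hab
  have hf0 : f ≠ 0 := by rintro rfl; simp at hfd; omega
  have hlc : f.leadingCoeff ≠ 0 := leadingCoeff_ne_zero.mpr hf0
  obtain ⟨H, hH⟩ : ∃ H : ℕ, H = max (max (f.support.sup (fun i => (f.coeff i).natAbs)) n.natAbs) e.natAbs :=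
    ⟨_, rfl⟩
  have hHR : (H : ℝ) = max (max ((f.support.sup (fun i => (f.coeff i).natAbs) : ℕ) : ℝ) |(n : ℝ)|)
      |(e : ℝ)| := by
    rw [hH]
    push_cast
    rw [Nat.cast_natAbs, Nat.cast_natAbs]
    push_cast
    rfl
  have hcoef : ∀ i, |f.coeff i| ≤ H := by
    intro i
    by_cases hi : i ∈ f.support
    · have h1 : (f.coeff i).natAbs ≤ H := by
        rw [hH]
        refine le_trans ?_ (le_max_left _ _)
        refine le_trans ?_ (le_max_left _ _)
        exact Finset.le_sup (f := fun i => (f.coeff i).natAbs) hi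
      have h2 : ((f.coeff i).natAbs : ℤ) ≤ H := by exact_mod_cast h1
      rwa [Int.natCast_natAbs] at h2
    · rw [notMem_support_iff.mp hi, abs_zero]; positivity
  have hH1 : 1 ≤ H := by
    have h1 := hcoef f.natDegree
    have h2 : 1 ≤ |f.coeff f.natDegree| := Int.one_le_abs hlc
    have h3 : (1 : ℤ) ≤ H := h2.trans h1
    exact_mod_cast h3
  have hnH : |n| ≤ H := by
    have h1 : n.natAbs ≤ H := by
      rw [hH]
      exact (le_max_right _ _).trans (le_max_left _ _)
    have h2 : (n.natAbs : ℤ) ≤ H := by exact_mod_cast h1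
    rwa [Int.natCast_natAbs] at h2
  have heH : |e| ≤ H := by
    have h1 : e.natAbs ≤ H := by
      rw [hH]
      exact le_max_right _ _
    have h2 : (e.natAbs : ℤ) ≤ H := by exact_mod_cast h1
    rwa [Int.natCast_natAbs] at h2
  rcases h f hfd hsep.squarefree H hH1 hcoef n e s hs hns hnH heH x y hy a b hb hbx hab with
    hfin | ⟨k, hk, m, Q, c, hc, hm, hmk, hid, hx, he⟩
  · left
    rw [← hHR]
    have hHR1 : (1 : ℝ) ≤ H := by exact_mod_cast hH1
    have hKR : (1 : ℝ) ≤ K := by exact_mod_cast hK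
    have hpow : (1 : ℝ) ≤ (H : ℝ) ^ M := one_le_pow₀ hHR1
    rw [max_eq_left hHR1]
    calc Real.log (max |(x : ℝ)| 1) ≤ Real.log (K * (H : ℝ) ^ M) := by
          apply Real.log_le_log (by positivity)
          apply max_le hfin
          calc (1 : ℝ) = 1 * 1 := by norm_num
            _ ≤ _ := mul_le_mul hKR hpow (by norm_num) (by positivity)
      _ = M * Real.log H + Real.log K := by
          rw [Real.log_mul (by positivity) (by positivity), Real.log_pow]; ring
  · right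
    refine ⟨m, Q, c, hc, ?_, by rw [hmk]; exact hk, by rw [pow_two, hid]; ring, hx, he⟩
    -- degrees
    have hn0 : n ≠ 0 := by
      rintro rfl
      rw [zero_mul] at hns
      exact pow_ne_zero 2 hs hns.symm
    have hL : (C n * X + C e : ℤ[X]).natDegree = 1 := natDegree_linear hn0
    have hL0 : (C n * X + C e : ℤ[X]) ≠ 0 := by
      intro h0
      rw [h0, natDegree_zero] at hL
      omega
    have h1 : (m * (C n * X + C e) - C c : ℤ[X]).natDegree = m.natDegree + 1 := by
      rw [natDegree_sub_C, natDegree_mul hm hL0, hL]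
    have h1' : (m * (C n * X + C e) - C c : ℤ[X]) ≠ 0 := by
      intro h0
      rw [h0, natDegree_zero] at h1
      omega
    have h2 := congrArg natDegree hid
    have hQ : Q ≠ 0 := by
      rintro rfl
      rw [mul_zero, zero_mul] at hid
      exact mul_ne_zero hm h1' hid.symm
    rw [natDegree_mul (mul_ne_zero hQ hQ) hf0, natDegree_mul hQ hQ, natDegree_mul hm h1', h1] at h2
    omega

end Pool.Agent.Results.MP_d88658_nt.ApproximableSqrt
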